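import Pool.Agent.N569.FB.Defs

/-!
# FB1: clusters of exponents

Leaf of helper569's project FB. The coefficient of `n` in the sum over the classes of the
equivalence relation generated by `|w i - w j| ≤ 2 R`.
-/

set_option autoImplicit false

namespace Pool.Agent.N106.FB

open Pool.Agent.N569.FB Finset LaurentPolynomial

theorem cT (n k : ℤ) (f : ℤ[T;T⁻¹]) : (T n * f).coeff k = f.coeff (k - n) := by
  unfold T
  rw [AddMonoidAlgebra.coeff_single_mul_eq_mul_coeff (k - n), one_mul]
  intro a _
  omega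

lemma coeff_sum' {ι : Type*} [Fintype ι] (w : ι → ℤ) (G : ι → ℤ[T;T⁻¹]) (n : ℤ) :
    (∑ i, T (w i) * G i : ℤ[T;T⁻¹]).coeff n = ∑ i, (G i).coeff (n - w i) := by
  rw [AddMonoidAlgebra.coeff_sum, Finsupp.finsetSum_apply]
  exact Finset.sum_congr rfl fun i _ => cT _ _ _

/-- FB1 -/
theorem cluster {ι : Type*} [Fintype ι] (w w' : ι → ℤ) (G : ι → ℤ[T;T⁻¹]) (R : ℤ) (hG : ∀ i, Ex (G i) R)
    (h : ∑ i, T (w i) * G i = 0) (hw : ∀ i j, |w i - w j| ≤ 2 * R → w' i - w' j = w i - w j) :
    ∑ i, T (w' i) * G i = 0 := by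
  classical
  let S : Setoid ι := Relation.EqvGen.setoid (fun i j => |w i - w j| ≤ 2 * R)
  have hS : ∀ i j, S.r i j → w' i - w' j = w i - w j := by
    intro i j hij
    induction hij with
    | rel x y hxy => exact hw x y hxy
    | refl x => simp
    | symm x y _ ih => linarith
    | trans x y z _ _ ih1 ih2 => linarith
  apply LaurentPolynomial.ext
  intro n
  rw [coeff_sum']
  have h0 : ∀ k : ℤ, ∑ i, (G i).coeff (k - w i) = 0 := by
    intro k
    rw [← coeff_sum', h]
    simp
  rw [Finset.sum_partition S]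
  simp only [AddMonoidAlgebra.coeff_zero, Finsupp.coe_zero, Pi.zero_apply]
  refine Finset.sum_eq_zero fun c hc => ?_
  obtain ⟨i, _, rfl⟩ := Finset.mem_image.mp hc
  have h1 : ∀ y ∈ (univ.filter fun y => (Quotient.mk S y) = Quotient.mk S i),
      (G y).coeff (n - w' y) = (G y).coeff ((n - (w' i - w i)) - w y) := by
    intro y hy
    have h2 := (Finset.mem_filter.mp hy).2
    have h3 := hS y i (Quotient.exact h2)
    congr 1
    linarith
  rw [Finset.sum_congr rfl h1]
  set k := n - (w' i - w i) with hk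
  by_cases hex : ∃ j, Quotient.mk S j = Quotient.mk S i ∧ (G j).coeff (k - w j) ≠ 0
  · obtain ⟨j, hj, hj0⟩ := hex
    rw [Finset.sum_filter]
    refine Eq.trans ?_ (h0 k)
    refine Finset.sum_congr rfl fun y _ => ?_
    split_ifs with hy
    · rfl
    · by_contra hne
      apply hy
      rw [← hj]
      apply Quotient.sound
      apply Relation.EqvGen.rel
      have h4 := hG j _ hj0
      have h5 := hG y _ (fun h => hne h.symm)
      rw [abs_le] at h4 h5 ⊢
      constructor <;> linarith [h4.1, h4.2, h5.1, h5.2]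
  · push Not at hex
    refine Finset.sum_eq_zero fun y hy => ?_
    exact hex y (Finset.mem_filter.mp hy).2

end Pool.Agent.N106.FB
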